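import Pool.Agent.H752R3.SierpMichael

set_option autoImplicit false

/-!
Sierpiński sets of cardinality less than the continuum are not productively Hurewicz and not
productively Menger, when the second factor ranges over all Tychonoff spaces.
-/

namespace Pool.Agent.Results.MP_7c0f46_gt.SierpinskiNotProductive

open Set Filter MeasureTheory Cardinal Pool.Agent.H752R3

/-- The bounding number `𝔟`. -/
noncomputable def bNumber : Cardinal.{0} :=
  sInf {κ | ∃ B : Set (ℕ → ℕ), (∀ g : ℕ → ℕ, ∃ f ∈ B, ¬ ∀ᶠ n in atTop, f n ≤ g n) ∧ #B = κ}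

/-- Productively Hurewicz, with the second factor ranging over all Tychonoff spaces (a failure for
this class is a failure for the class of all spaces). -/
def ProductivelyHurewicz (X : Type) [TopologicalSpace X] : Prop :=
  ∀ (Y : Type) [TopologicalSpace Y] [T35Space Y], HurewiczSp Y → HurewiczSp (X × Y)

/-- Productively Menger, with the second factor ranging over all Tychonoff spaces. -/
def ProductivelyMenger (X : Type) [TopologicalSpace X] : Prop :=
  ∀ (Y : Type) [TopologicalSpace Y] [T35Space Y], MengerSp Y → MengerSp (X × Y)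

theorem bNumber_le : bNumber ≤ 𝔠 := by
  have h1 : bNumber ≤ #(Set.univ : Set (ℕ → ℕ)) := by
    apply csInf_le'
    refine ⟨Set.univ, fun g => ⟨fun n => g n + 1, trivial, fun h => ?_⟩, rfl⟩
    obtain ⟨n, hn⟩ := h.exists
    have hn' : g n + 1 ≤ g n := hn
    omega
  refine h1.trans ?_
  rw [Cardinal.mk_univ]
  simp

/-- (1) For every Sierpiński set `S` with `|S| < 2^ℵ₀` there is a Tychonoff Hurewicz space `Y` such
that `S × Y` is not Lindelöf, hence neither Menger nor Hurewicz.  (2) If there is a Sierpiński set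
of cardinality less than `𝔟` then there is a set of reals of cardinality less than `𝔟` that is
neither productively Hurewicz nor productively Menger. -/
theorem result :
    (∀ S : Set ℝ, SierpinskiSet S → #S < 𝔠 →
      ∃ (Y : Type) (_ : TopologicalSpace Y), T35Space Y ∧ HurewiczSp Y ∧ MengerSp Y ∧
        ¬ LindelofSpace (S × Y) ∧ ¬ MengerSp (S × Y) ∧ ¬ HurewiczSp (S × Y)) ∧
    ((∃ S : Set ℝ, SierpinskiSet S ∧ #S < bNumber) →
      ∃ X : Set ℝ, #X < bNumber ∧ ¬ ProductivelyHurewicz X ∧ ¬ ProductivelyMenger X) := by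
  have main : ∀ S : Set ℝ, SierpinskiSet S → #S < 𝔠 →
      ∃ (Y : Type) (_ : TopologicalSpace Y), T35Space Y ∧ HurewiczSp Y ∧ MengerSp Y ∧
        ¬ LindelofSpace (S × Y) ∧ ¬ MengerSp (S × Y) ∧ ¬ HurewiczSp (S × Y) := by
    intro S hS hc
    obtain ⟨Y, iY, h1, h2, 𝒰, h3, h4, h5⟩ := exists_bad_factor hS hc
    have hM : ¬ MengerSp (S × Y) := by
      intro h
      obtain ⟨𝒱, hV1, hV2, hV3⟩ := h.lindelof h3 h4
      exact h5 𝒱 hV1 hV2 hV3
    refine ⟨Y, iY, h1, h2, h2.toMenger, ?_, hM, fun h => hM h.toMenger⟩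
    intro hL
    obtain ⟨t, ht1, ht2⟩ := (isLindelof_univ (X := S × Y)).elim_countable_subcover
      (fun u : 𝒰 => (u : Set (S × Y))) (fun u => h3 u u.2) (by
        intro x _
        have hx : x ∈ ⋃₀ 𝒰 := by rw [h4]; trivial
        obtain ⟨u, hu, hxu⟩ := hx
        exact mem_iUnion.2 ⟨⟨u, hu⟩, hxu⟩)
    apply h5 (Subtype.val '' t) (by rintro _ ⟨u, _, rfl⟩; exact u.2) (ht1.image _)
    rw [eq_univ_iff_forall]
    intro x
    obtain ⟨u, hu, hxu⟩ := mem_iUnion₂.1 (ht2 (mem_univ x))
    exact ⟨u, ⟨u, hu, rfl⟩, hxu⟩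
  refine ⟨main, ?_⟩
  rintro ⟨S, hS, hc⟩
  obtain ⟨Y, iY, h1, h2, h2', -, h3, h4⟩ := main S hS (hc.trans_le bNumber_le)
  exact ⟨S, hc, fun h => h4 (h Y h2), fun h => h3 (h Y h2')⟩

end Pool.Agent.Results.MP_7c0f46_gt.SierpinskiNotProductive
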